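import Mathlib

namespace Pool.Agent.H.MP_c3beeb_co

open Classical SimpleGraph

def Alt {V : Type} (w : List V) (x y : V) : Prop :=
  x ∈ w ∧ y ∈ w ∧ (w.filter fun z => z = x ∨ z = y).IsChain (· ≠ ·)

def Rep {V : Type} (G : SimpleGraph V) : Prop :=
  ∃ w : List V, (∀ v, v ∈ w) ∧ ∀ x y, x ≠ y → (G.Adj x y ↔ Alt w x y)

def R (f g : ℕ → ℤ) : Prop := ∃ k : ℤ, ∀ t, 0 ≤ f t - g t + k ∧ f t - g t + k ≤ 1

noncomputable def cnt {V : Type} (w : List V) (x : V) (t : ℕ) : ℤ := (w.take t).count x

lemma alt_iff {V : Type} {x y : V} (h : x ≠ y) (w : List V) :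
    (w.filter fun z => z = x ∨ z = y).IsChain (· ≠ ·) ↔ R (cnt w x) (cnt w y) := by
  let A : ℤ → List V → Prop := fun k w =>
    ∀ t, 0 ≤ cnt w x t - cnt w y t + k ∧ cnt w x t - cnt w y t + k ≤ 1
  have A0 : ∀ k w, A k w → 0 ≤ k ∧ k ≤ 1 := fun k w h => by simpa [cnt] using h 0
  have A1 : ∀ k a w, A k (a :: w) ↔ (0 ≤ k ∧ k ≤ 1) ∧
      A (k + (if a = x then 1 else 0) - if a = y then 1 else 0) w := by
    intro k a w
    have e : ∀ t z, cnt (a :: w) z (t + 1) = cnt w z t + if a = z then 1 else 0 := by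
      intro t z
      simp only [cnt, List.take_succ_cons, List.count_cons, beq_iff_eq]
      split_ifs <;> simp
    refine ⟨fun h => ⟨A0 _ _ h, fun t => ?_⟩, fun h t => ?_⟩
    · have := h (t + 1)
      rw [e, e] at this
      constructor <;> linarith [this.1, this.2]
    · rcases t with _ | t
      · simpa [cnt] using h.1
      · have := h.2 t
        rw [e, e]
        constructor <;> linarith [this.1, this.2]
  have key : ∀ w, (A 0 w ↔ (y :: w.filter fun z => z = x ∨ z = y).IsChain (· ≠ ·)) ∧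
      (A 1 w ↔ (x :: w.filter fun z => z = x ∨ z = y).IsChain (· ≠ ·)) := by
    intro w
    induction w with
    | nil => simp [A, cnt]
    | cons a w ih =>
      have b1 : ¬ A 2 w := fun h => by have := A0 _ _ h; omega
      have b2 : ¬ A (-1) w := fun h => by have := A0 _ _ h; omega
      rw [A1, A1]
      by_cases h1 : a = x
      · subst h1
        rw [List.filter_cons_of_pos (by simp), List.isChain_cons_cons, List.isChain_cons_cons]
        simp only [if_true, if_neg h, zero_add, sub_zero, one_add_one_eq_two, b1, ih.2]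
        simp [h.symm]
      by_cases h2 : a = y
      · subst h2
        rw [List.filter_cons_of_pos (by simp), List.isChain_cons_cons, List.isChain_cons_cons]
        simp only [if_true, if_neg h1, add_zero, zero_sub, sub_self, b2, ih.1]
        simp [h]
      · rw [List.filter_cons_of_neg (by simp [h1, h2])]
        simp only [if_neg h1, if_neg h2, add_zero, sub_zero, ih.1, ih.2]
        simp
  constructor
  · intro hc
    rcases e : (w.filter fun z => z = x ∨ z = y) with _ | ⟨a, l⟩
    · exact ⟨0, (key w).1.2 (by rw [e]; simp)⟩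
    · have : a ∈ w.filter fun z => z = x ∨ z = y := by rw [e]; simp
      rcases (by simpa using (List.mem_filter.1 this).2 : a = x ∨ a = y) with rfl | rfl
      · exact ⟨0, (key w).1.2 (by rw [e] at hc ⊢; exact List.isChain_cons_cons.2 ⟨h.symm, hc⟩)⟩
      · exact ⟨1, (key w).2.2 (by rw [e] at hc ⊢; exact List.isChain_cons_cons.2 ⟨h, hc⟩)⟩
  · rintro ⟨k, hk⟩
    have := A0 k w hk
    obtain rfl | rfl : k = 0 ∨ k = 1 := by omega
    · exact ((key w).1.1 hk).tail
    · exact ((key w).2.1 hk).tail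

lemma rep_of_word {V α : Type} (G : SimpleGraph V) (φ : V → α) (hφ : Function.Injective φ)
    (w : List α) (hw : ∀ v, φ v ∈ w)
    (h : ∀ x y, x ≠ y → (G.Adj x y ↔ R (cnt w (φ x)) (cnt w (φ y)))) : Rep G := by
  let ψ : α → Option V := fun a => if h : ∃ v, φ v = a then some h.choose else none
  have p1 : ∀ v, ψ (φ v) = some v := fun v => by
    have h : ∃ u, φ u = φ v := ⟨v, rfl⟩
    simp only [ψ, dif_pos h, hφ h.choose_spec]
  have m : ∀ v, v ∈ w.filterMap ψ := fun v => List.mem_filterMap.2 ⟨_, hw v, p1 v⟩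
  refine ⟨w.filterMap ψ, m, fun x y hxy => ?_⟩
  have e : ∀ w : List α, ((w.filterMap ψ).filter fun z => z = x ∨ z = y).map φ =
      w.filter fun z => z = φ x ∨ z = φ y := by
    intro w
    induction w with
    | nil => simp
    | cons a w ih =>
      by_cases h : ∃ v, φ v = a
      · obtain ⟨v, rfl⟩ := h
        rw [List.filterMap_cons_some (p1 v), List.filter_cons, List.filter_cons]
        simp only [hφ.eq_iff]
        split_ifs <;> simp only [List.map_cons, ih]
      · rw [List.filterMap_cons_none (by simp only [ψ, dif_neg h]), ih, List.filter_cons_of_neg]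
        simp only [decide_eq_true_eq, not_or]
        exact ⟨fun e => h ⟨_, e.symm⟩, fun e => h ⟨_, e.symm⟩⟩
  rw [h x y hxy, ← alt_iff (hφ.ne hxy), ← e, List.isChain_map]
  simp only [Alt, m, true_and, hφ.ne_iff]

lemma cmp {f g : ℕ → ℤ} (h : R f g) (c : ℤ) : (∀ t, f t ≤ g t + c) ∨ ∀ t, g t + c ≤ f t := by
  by_contra hn
  push Not at hn
  obtain ⟨⟨a, ha⟩, b, hb⟩ := hn
  obtain ⟨k, hk⟩ := h
  have := hk a
  have := hk b
  omega

lemma core0 (n : ℕ) (hn : 4 ≤ n) (s p : ℕ → ℕ → ℤ) (h1 : ∀ i < n, ∀ j < n, R (s i) (s j))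
    (h2 : ∀ i < n, ∀ j < n, R (p i) (s j) → j = i ∨ j = i + 1 ∨ (i + 1 = n ∧ j = 0))
    (h3 : ∀ i, i + 1 < n → R (p i) (p (i + 1))) (h4 : R (p (n - 1)) (p 0)) (h5 : ¬ R (p 0) (p 2))
    (h6 : R (p (n - 1)) (s 0))
    (a1 : ∀ i < n, ∀ t, s i t ≤ p i t ∧ p i t ≤ s i t + 1)
    (a2 : ∀ i, i + 1 < n → ∀ t, s (i + 1) t ≤ p i t ∧ p i t ≤ s (i + 1) t + 1)
    (h0 : ∀ t, s (0 + 1) t ≤ s 0 t) : False := by
  have no : ∀ i < n, ∀ j < n, ∀ k : ℤ, (∀ t, s j t - k ≤ p i t ∧ p i t ≤ s j t - k + 1) →
      j = i ∨ j = i + 1 ∨ (i + 1 = n ∧ j = 0) := fun i hi j hj k h =>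
    h2 i hi j hj ⟨k, fun t => by have := h t; omega⟩
  have dec : ∀ i, i + 1 < n → ∀ t, s (i + 1) t ≤ s i t := by
    intro i
    induction i with
    | zero => exact fun _ => h0
    | succ i ih =>
      intro hi
      have ih := ih (by omega)
      have b1 := a1 i (by omega)
      have b2 := a2 i (by omega)
      have b3 := a1 (i + 1) (by omega)
      have b4 := a2 (i + 1) hi
      rcases cmp (h1 (i + 1 + 1) hi (i + 1) (by omega)) 0 with h | h
      · simpa using h
      rcases cmp (h1 i (by omega) (i + 1 + 1) hi) 0 with h' | h'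
      · have := no (i + 1) (by omega) i (by omega) 0 fun t => by
          have := b3 t; have := b4 t; have := h' t; have := ih t; omega
        omega
      · have := no i (by omega) (i + 1 + 1) hi 0 fun t => by
          have := b1 t; have := b2 t; have := h' t; have := h t; omega
        omega
  have decp : ∀ i, i + 2 < n → ∀ t, p (i + 1) t ≤ p i t := by
    intro i hi
    rcases cmp (h3 i (by omega)) 0 with h | h
    · have := no i (by omega) (i + 1 + 1) hi 0 fun t => by
        have := a2 i (by omega) t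
        have := a2 (i + 1) hi t
        have := dec (i + 1) hi t
        have := h t
        omega
      omega
    · simpa using h
  have low : ∀ i < n, ∀ t, s i t ≤ s 0 t ∧ s 0 t - 1 ≤ s i t := by
    intro i
    induction i with
    | zero => intro _ t; omega
    | succ i ih =>
      intro hi
      have ih := ih (by omega)
      have b1 := a1 i (by omega)
      have b2 := a2 i hi
      have b3 := dec i hi
      rcases cmp (h1 (i + 1) hi 0 (by omega)) (-1) with h | h
      · have := no i (by omega) 0 (by omega) 1 fun t => by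
          have := b1 t; have := b2 t; have := h t; have := ih t; omega
        obtain rfl : i = 0 := by omega
        intro t
        have := b1 t; have := b2 t; have := b3 t; omega
      · intro t
        have := h t; have := ih t; have := b3 t; omega
  have pd : ∀ i, i + 1 < n → ∀ j ≤ i, ∀ t, p i t ≤ p j t := by
    intro i
    induction i with
    | zero => intro _ j hj t; obtain rfl : j = 0 := by omega
              rfl
    | succ i ih =>
      intro hi j hj t
      rcases hj.eq_or_lt with rfl | hj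
      · rfl
      · exact (decp i hi t).trans (ih (by omega) j (by omega) t)
  obtain ⟨m, rfl⟩ : ∃ m, n = m + 2 := ⟨n - 2, by omega⟩
  have c1 := a1 (m + 1) (by omega)
  have c3 := low (m + 1) (by omega)
  have c5 := a2 0 (by omega)
  have c6 := pd m (by omega) 0 (by omega)
  have c7 := pd m (by omega) 2 (by omega)
  have c8 : ∀ t, p 2 t ≤ p 0 t := fun t => by
    rcases (show 2 ≤ m by omega).eq_or_lt with rfl | h
    · exact c6 t
    · exact pd 2 (by omega) 0 (by omega) t
  have c9 := dec m (by omega)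
  have c10 := a1 m (by omega)
  have c11 := low m (by omega)
  change R (p (m + 1)) (p 0) at h4
  change R (p (m + 1)) (s 0) at h6
  rcases cmp (h3 m (by omega)) 0 with h | h
  · obtain ⟨k, hk⟩ := h6
    by_cases k0 : k ≤ 0
    · have := no (m + 1) (by omega) m (by omega) 0 fun t => by
        have := hk t; have := c1 t; have := c9 t; have := c11 t; omega
      omega
    by_cases k1 : k = 1
    · have := no m (by omega) 0 (by omega) 1 fun t => by
        have := hk t; have := h t; have := c10 t; have := c11 t; omega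
      omega
    · have := no (m + 1) (by omega) m (by omega) 1 fun t => by
        have := hk t; have := c1 t; have := c3 t; have := c11 t; omega
      omega
  · obtain ⟨k, hk⟩ := h4
    by_cases hk1 : k ≤ 1
    · exact h5 ⟨0, fun t => by
        have := hk t; have := c7 t; have := c8 t; have := h t; omega⟩
    · have := no (m + 1) (by omega) (0 + 1) (by omega) 1 fun t => by
        have := hk t; have := c1 t; have := c3 t; have := c5 t; have := h0 t; omega
      omega

lemma core (n : ℕ) (hn : 4 ≤ n) (s p : ℕ → ℕ → ℤ) (h1 : ∀ i < n, ∀ j < n, R (s i) (s j))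
    (h2 : ∀ i < n, ∀ j < n, R (p i) (s j) ↔ j = i ∨ j = i + 1 ∨ (i + 1 = n ∧ j = 0))
    (h3 : ∀ i, i + 1 < n → R (p i) (p (i + 1))) (h4 : R (p (n - 1)) (p 0))
    (h5 : ¬ R (p 0) (p 2)) : False := by
  have e1 : ∀ i, ∃ k : ℤ, i < n → ∀ t, 0 ≤ p i t - s i t + k ∧ p i t - s i t + k ≤ 1 := fun i => by
    by_cases h : i < n
    · exact ((h2 i h i h).2 (Or.inl rfl)).imp fun k hk _ => hk
    · exact ⟨0, fun h' => absurd h' h⟩
  have e2 : ∀ i, ∃ k : ℤ, i + 1 < n →
      ∀ t, 0 ≤ p i t - s (i + 1) t + k ∧ p i t - s (i + 1) t + k ≤ 1 := fun i => by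
    by_cases h : i + 1 < n
    · exact ((h2 i (by omega) _ h).2 (Or.inr (Or.inl rfl))).imp fun k hk _ => hk
    · exact ⟨0, fun h' => absurd h' h⟩
  choose k1 e1 using e1
  choose k2 e2 using e2
  obtain ⟨a, ha⟩ : ∃ a : ℕ → ℤ, ∀ i, a (i + 1) = a i + k1 i - k2 i :=
    ⟨fun i => ∑ j ∈ Finset.range i, (k1 j - k2 j), fun i => by
      simp only [Finset.sum_range_succ]; ring⟩
  have h6 := (h2 (n - 1) (by omega) 0 (by omega)).2 (by omega)
  have P : ∀ (f g : ℕ → ℤ) (c d : ℤ), R (fun t => f t + c) (fun t => g t + d) ↔ R f g :=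
    fun f g c d => ⟨fun ⟨k, h⟩ => ⟨k + c - d, fun t => by have := h t; dsimp only at this; omega⟩,
      fun ⟨k, h⟩ => ⟨k - c + d, fun t => by have := h t; dsimp only; omega⟩⟩
  have N : ∀ (f g : ℕ → ℤ) (c d : ℤ), R (fun t => c - f t) (fun t => d - g t) ↔ R f g :=
    fun f g c d => ⟨fun ⟨k, h⟩ => ⟨1 - k - c + d, fun t => by have := h t; dsimp only at this; omega⟩,
      fun ⟨k, h⟩ => ⟨1 - k - c + d, fun t => by have := h t; dsimp only; omega⟩⟩
  rcases cmp (h1 (0 + 1) (by omega) 0 (by omega)) (a 0 - a (0 + 1)) with h | h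
  · exact core0 n hn (fun i t => s i t + a i) (fun i t => p i t + (a i + k1 i))
      (fun i hi j hj => (P _ _ _ _).2 (h1 i hi j hj))
      (fun i hi j hj h => (h2 i hi j hj).1 ((P _ _ _ _).1 h))
      (fun i hi => (P _ _ _ _).2 (h3 i hi)) ((P _ _ _ _).2 h4) (fun h => h5 ((P _ _ _ _).1 h))
      ((P _ _ _ _).2 h6) (fun i hi t => by have := e1 i hi t; omega)
      (fun i hi t => by have := e2 i hi t; have := ha i; omega)
      (fun t => by have := h t; omega)
  · exact core0 n hn (fun i t => -a i - s i t) (fun i t => (1 - a i - k1 i) - p i t)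
      (fun i hi j hj => (N _ _ _ _).2 (h1 i hi j hj))
      (fun i hi j hj h => (h2 i hi j hj).1 ((N _ _ _ _).1 h))
      (fun i hi => (N _ _ _ _).2 (h3 i hi)) ((N _ _ _ _).2 h4) (fun h => h5 ((N _ _ _ _).1 h))
      ((N _ _ _ _).2 h6) (fun i hi t => by have := e1 i hi t; omega)
      (fun i hi t => by have := e2 i hi t; have := ha i; omega)
      (fun t => by have := h t; omega)

def wheel (n : ℕ) : SimpleGraph (Fin (n + 1)) :=
  fromRel fun a b => a.val = 0 ∨ a.val + 1 = b.val ∨ (a.val = n ∧ b.val = 1)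

def fan (n : ℕ) : SimpleGraph (Fin (n + 1)) := fromRel fun a b => a.val = 0 ∨ a.val + 1 = b.val

lemma wheel_not (n : ℕ) (hn : 4 ≤ n) : ¬ Rep (wheel n).lineGraph := by
  rintro ⟨w, hw, h⟩
  let c : Sym2 (Fin (n + 1)) → ℕ → ℤ := fun e =>
    if h : e ∈ (wheel n).edgeSet then cnt w ⟨e, h⟩ else 0
  have key : ∀ a b a' b', (wheel n).Adj a b → (wheel n).Adj a' b' →
      (R (c s(a, b)) (c s(a', b')) ↔
        a.val = a'.val ∨ a.val = b'.val ∨ b.val = a'.val ∨ b.val = b'.val) := by
    intro a b a' b' h1 h2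
    simp only [Fin.val_inj]
    by_cases e : s(a, b) = s(a', b')
    · rw [e]
      refine iff_of_true ⟨0, by simp⟩ ?_
      rw [Sym2.eq_iff] at e
      tauto
    · have ne : (⟨s(a, b), h1⟩ : (wheel n).edgeSet) ≠ ⟨s(a', b'), h2⟩ := fun h => e (congrArg (·.1) h)
      have := h _ _ ne
      simp only [Alt, hw, true_and, lineGraph_adj_iff_exists] at this
      rw [alt_iff ne] at this
      simp only [c, dif_pos (show s(a, b) ∈ (wheel n).edgeSet from h1),
        dif_pos (show s(a', b') ∈ (wheel n).edgeSet from h2)]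
      rw [← this]
      simp [ne, or_assoc]
  obtain ⟨v, hv⟩ : ∃ v : ℕ → Fin (n + 1), ∀ i, (v i).val = if i < n then i + 1 else 1 :=
    ⟨fun i => ⟨if i < n then i + 1 else 1, by split_ifs <;> omega⟩, fun _ => rfl⟩
  have sp : ∀ i, (wheel n).Adj 0 (v i) := fun i => by
    simp only [wheel, fromRel_adj, ne_eq, Fin.ext_iff, hv, Fin.val_zero]
    split_ifs <;> simp
  have rim : ∀ i < n, (wheel n).Adj (v i) (v (i + 1)) := fun i hi => by
    simp only [wheel, fromRel_adj, ne_eq, Fin.ext_iff, hv]
    split_ifs <;> omega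
  refine core n hn (fun i => c s(0, v i)) (fun i => c s(v i, v (i + 1))) (fun i _ j _ => ?_)
    (fun i hi j hj => ?_) (fun i hi => ?_) ?_ ?_
  · rw [key _ _ _ _ (sp i) (sp j)]; simp
  · rw [key _ _ _ _ (rim i hi) (sp j)]
    have a := hv i
    have b := hv (i + 1)
    have c := hv j
    rw [Fin.val_zero]
    split_ifs at a b c <;> omega
  · rw [key _ _ _ _ (rim i (by omega)) (rim _ hi)]; simp
  · rw [key _ _ _ _ (rim _ (by omega)) (rim _ (by omega))]
    simp only [hv]
    split_ifs <;> omega
  · rw [key _ _ _ _ (rim _ (by omega)) (rim _ (by omega))]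
    simp only [hv]
    split_ifs <;> omega

def let3 (n : ℕ) : ℕ × ℕ := if n % 3 = 0 then (n / 3 + 1, n / 3 + 2) else
  if n % 3 = 1 then (0, n / 3 + 1) else if n / 3 = 0 then (0, 0) else (n / 3, n / 3 + 1)

lemma let3_iff (t a b : ℕ) : let3 t = (a, b) ↔ (t % 3 = 0 ∧ t / 3 + 1 = a ∧ t / 3 + 2 = b) ∨
    (t % 3 = 1 ∧ 0 = a ∧ t / 3 + 1 = b) ∨ (t = 2 ∧ 0 = a ∧ 0 = b) ∨
    (t % 3 = 2 ∧ t ≠ 2 ∧ t / 3 = a ∧ t / 3 + 1 = b) := by
  unfold let3
  split_ifs <;> rw [Prod.mk.injEq] <;> omega

lemma cnt_zero {V : Type} {w : List V} {x : V} (h : x ∉ w) (t : ℕ) : cnt w x t = 0 := by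
  rw [cnt, List.count_eq_zero_of_not_mem fun h' => h (List.mem_of_mem_take h')]; rfl

lemma cnt_let (T t : ℕ) :
    (∀ j, 1 ≤ j → 3 * j ≤ T → cnt ((List.range T).map let3) (0, j) t =
      if 3 * j - 2 < t then 1 else 0) ∧
    ∀ i, 1 ≤ i → 3 * i + 3 ≤ T → cnt ((List.range T).map let3) (i, i + 1) t =
      (if 3 * i - 3 < t then 1 else 0) + if 3 * i + 2 < t then 1 else 0 := by
  have e : ∀ a t, ((List.range (t + 1)).map let3).count a =
      ((List.range t).map let3).count a + if let3 t = a then 1 else 0 := by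
    intro a t
    simp [List.range_succ, List.count_cons]
  have h1 : ∀ j, 1 ≤ j → ∀ t, ((List.range t).map let3).count (0, j) =
      if 3 * j - 2 < t then 1 else 0 := by
    intro j hj t
    induction t with
    | zero => simp
    | succ t ih =>
      have : let3 t = (0, j) ↔ t = 3 * j - 2 := by
        rw [let3_iff]; omega
      rw [e, ih]
      simp only [this]
      split_ifs <;> omega
  have h2 : ∀ i, 1 ≤ i → ∀ t, ((List.range t).map let3).count (i, i + 1) =
      (if 3 * i - 3 < t then 1 else 0) + if 3 * i + 2 < t then 1 else 0 := by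
    intro j hj t
    induction t with
    | zero => simp
    | succ t ih =>
      have : let3 t = (j, j + 1) ↔ t = 3 * j - 3 ∨ t = 3 * j + 2 := by
        rw [let3_iff]; omega
      rw [e, ih]
      simp only [this]
      split_ifs <;> omega
  constructor <;> intro j h h' <;> rw [cnt, ← List.map_take, List.take_range]
  · convert congrArg (Nat.cast : ℕ → ℤ) (h1 j h (min t T))
    split_ifs <;> omega
  · convert congrArg (Nat.cast : ℕ → ℤ) (h2 j h (min t T))
    split_ifs <;> omega

lemma fan_rep (n : ℕ) : Rep (fan n).lineGraph := by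
  let φ : (fan n).edgeSet → ℕ × ℕ := fun e => (e.1.inf.val, e.1.sup.val)
  have ed : ∀ e : (fan n).edgeSet, ∃ a b : Fin (n + 1), e.1 = s(a, b) ∧ φ e = (a.val, b.val) ∧
      a.val < b.val ∧ (a.val = 0 ∨ a.val + 1 = b.val) := by
    rintro ⟨e, he⟩
    induction e using Sym2.ind with
    | _ a b =>
      simp only [fan, mem_edgeSet, fromRel_adj, ne_eq, Fin.ext_iff] at he
      by_cases h : a ≤ b
      · refine ⟨a, b, rfl, by simp [φ, h], ?_, ?_⟩ <;> (rw [Fin.le_def] at h; omega)
      · refine ⟨b, a, Sym2.eq_swap, by simp [φ, (not_le.1 h).le], ?_, ?_⟩ <;>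
          (rw [Fin.le_def] at h; omega)
  have inj : Function.Injective φ := fun e f h => by
    simp only [φ, Prod.mk.injEq, Fin.val_inj] at h
    exact Subtype.ext (Sym2.inf_eq_inf_and_sup_eq_sup.1 h)
  have cv : ∀ a b : Fin (n + 1), a.val < b.val → (a.val = 0 ∨ a.val + 1 = b.val) → ∀ t,
      cnt ((List.range (3 * n)).map let3) (a.val, b.val) t = if a.val = 0 then
        (if 3 * b.val - 2 < t then 1 else 0) else
        (if 3 * a.val - 3 < t then 1 else 0) + if 3 * a.val + 2 < t then 1 else 0 := by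
    intro a b h1 h2 t
    have := b.2
    by_cases h : a.val = 0
    · rw [if_pos h, h]; exact (cnt_let _ t).1 _ (by omega) (by omega)
    · rw [if_neg h, show b.val = a.val + 1 by omega]
      exact (cnt_let _ t).2 _ (by omega) (by omega)
  refine rep_of_word _ φ inj ((List.range (3 * n)).map let3) (fun e => ?_) fun e f hef => ?_
  · obtain ⟨a, b, -, h2, h3, h4⟩ := ed e
    have := cv a b h3 h4 (3 * n)
    have hb := b.2
    by_contra hn
    rw [← h2, cnt_zero hn] at this
    split_ifs at this <;> omega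
  · obtain ⟨a, b, h1, h2, h3, h4⟩ := ed e
    obtain ⟨c, d, k1, k2, k3, k4⟩ := ed f
    have ne := inj.ne hef
    rw [h2, k2, ne_eq, Prod.mk.injEq] at ne
    have : (fan n).lineGraph.Adj e f ↔
        a.val = c.val ∨ a.val = d.val ∨ b.val = c.val ∨ b.val = d.val := by
      simp [lineGraph_adj_iff_exists, hef, h1, k1, Fin.val_inj, or_assoc]
    rw [this, h2, k2]
    simp only [R, cv a b h3 h4, cv c d k3 k4]
    generalize a.val = a at *
    generalize b.val = b at *
    generalize c.val = c at *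
    generalize d.val = d at *
    constructor
    · intro h
      by_cases o : c = 0 ∧ (a ≠ 0 ∨ b < d) ∨ a ≠ 0 ∧ c ≠ 0 ∧ a < c
      · exact ⟨0, fun t => by split_ifs <;> omega⟩
      · exact ⟨1, fun t => by split_ifs <;> omega⟩
    · rintro ⟨k, h⟩
      have t0 : 0 ≤ k ∧ k ≤ 1 := by simpa using h 0
      by_contra hn
      have t2 := h (3 * a + 3)
      split_ifs at t2 <;> try omega
      all_goals
        have t3 := h (3 * c + 3)
        split_ifs at t3 <;> try omega
      all_goals
        have t4 := h (3 * b - 1)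
        split_ifs at t4 <;> try omega
      all_goals
        have t5 := h (3 * d - 1)
        split_ifs at t5 <;> omega

lemma to_fan {W : Type} [Fintype W] (H : SimpleGraph W) (n : ℕ) (hn : Fintype.card W < n)
    (h : H ⊑ wheel n) : H ⊑ fan n := by
  obtain ⟨f⟩ := h
  obtain ⟨r, r0, hr⟩ : ∃ r : Fin (n + 1), r.val ≠ 0 ∧ ∀ x, (f x).val ≠ r.val := by
    by_contra hc
    push Not at hc
    have : (Finset.univ.erase (0 : Fin (n + 1))) ⊆ Finset.univ.image f := fun r hr => by
      obtain ⟨x, hx⟩ := hc r (by simpa using hr)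
      exact Finset.mem_image.2 ⟨x, by simp, Fin.ext hx⟩
    have := (Finset.card_le_card this).trans Finset.card_image_le
    simp at this
    omega
  have hr' := r.2
  obtain ⟨ρ, hρ⟩ : ∃ ρ : Fin (n + 1) → Fin (n + 1), ∀ a, (ρ a).val =
      if a.val = 0 then 0 else if r.val < a.val then a.val - r.val else a.val + n - r.val :=
    ⟨fun a => ⟨if a.val = 0 then 0 else if r.val < a.val then a.val - r.val else a.val + n - r.val,
      by have := a.2; split_ifs <;> omega⟩, fun _ => rfl⟩
  refine ⟨⟨⟨fun x => ρ (f x), fun {x y} h => ?_⟩, fun x y h => f.injective ?_⟩⟩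
  · have h := f.toHom.map_adj h
    have a := hr x
    have b := hr y
    have c := (f x).2
    have d := (f y).2
    change (wheel n).Adj (f x) (f y) at h
    simp only [wheel, fan, fromRel_adj, ne_eq, Fin.ext_iff, hρ] at h ⊢
    split_ifs <;> omega
  · have h : (ρ (f x)).val = (ρ (f y)).val := congrArg Fin.val h
    have c := (f x).2
    have d := (f y).2
    rw [hρ, hρ] at h
    change f x = f y
    ext
    split_ifs at h <;> omega

end Pool.Agent.H.MP_c3beeb_co
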